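import Pool.Agent.Q271.FL.Lex

/-!
# Flip colourings: from profiles to graphs, and the edge count
-/

namespace Pool.Agent.Q271.FL

open Finset

variable {k : ℕ}

open Classical in
/-- `e_j[v]`: the number of edges of colour `j` with both ends in the closed neighbourhood of
`v`. -/
noncomputable def eN {V : Type*} [Fintype V] (G : SimpleGraph V) (f : Sym2 V → Fin k) (v : V)
    (j : Fin k) : ℕ :=
  #{e : Sym2 V | e ∈ G.edgeSet ∧ f e = j ∧ ∀ u ∈ e, u = v ∨ G.Adj v u}

theorem bN_eq_two_mul {V : Type*} [Fintype V] (G : SimpleGraph V) (f : Sym2 V → Fin k) (v : V)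
    (j : Fin k) : bN G f v j = 2 * eN G f v j := by
  classical
  unfold bN eN
  rw [Finset.card_eq_sum_card_fiberwise (f := fun p : V × V => s(p.1, p.2))
    (t := ({e : Sym2 V | e ∈ G.edgeSet ∧ f e = j ∧ ∀ u ∈ e, u = v ∨ G.Adj v u} : Finset (Sym2 V)))]
  · rw [sum_const_nat (m := 2), mul_comm]
    intro e he
    induction e with
    | _ x y =>
    rw [mem_filter] at he
    obtain ⟨-, he1, he2, he3⟩ := he
    have hadj : G.Adj x y := he1
    have hne : x ≠ y := hadj.ne
    have : (({p : V × V | G.Adj p.1 p.2 ∧ f s(p.1, p.2) = j ∧ InN G v p.1 ∧ InN G v p.2} :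
        Finset (V × V)).filter (fun p => s(p.1, p.2) = s(x, y))) = {(x, y), (y, x)} := by
      ext ⟨a, b⟩
      rw [mem_filter, mem_filter, mem_insert, mem_singleton]
      constructor
      · rintro ⟨-, h⟩
        rw [Sym2.eq_iff] at h
        rcases h with ⟨h1, h2⟩ | ⟨h1, h2⟩
        · left; exact Prod.ext h1 h2
        · right; exact Prod.ext h1 h2
      · rintro (h | h)
        · obtain ⟨rfl, rfl⟩ := Prod.mk.inj h
          exact ⟨⟨mem_univ _, hadj, he2, he3 a (Sym2.mem_mk_left a b),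
            he3 b (Sym2.mem_mk_right a b)⟩, rfl⟩
        · obtain ⟨rfl, rfl⟩ := Prod.mk.inj h
          exact ⟨⟨mem_univ _, hadj.symm, by rw [Sym2.eq_swap]; exact he2,
            he3 a (Sym2.mem_mk_right b a), he3 b (Sym2.mem_mk_left b a)⟩, Sym2.eq_swap⟩
    rw [this, card_pair]
    intro h
    exact hne (Prod.mk.inj h).1
  · intro p hp
    have hp' := (mem_filter.1 hp).2
    rw [mem_coe, mem_filter]
    refine ⟨mem_univ _, hp'.1, hp'.2.1, ?_⟩
    intro u hu
    rw [Sym2.mem_iff] at hu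
    rcases hu with rfl | rfl
    · exact hp'.2.2.1
    · exact hp'.2.2.2

/-- From a profile to a graph on `Fin n`. -/
theorem exists_graph (hk : 0 < k) {n : ℕ} {a t : Fin k → ℕ} (h : Prof n a t) :
    0 < n ∧ ∃ (G : SimpleGraph (Fin n)) (f : Sym2 (Fin n) → Fin k),
      (∀ v j, cdeg G f v j = a j) ∧ ∀ v j, tN G f v j = t j := by
  classical
  obtain ⟨V, _, col, hc, hn, hsym, hself, ha, ht⟩ := h
  refine ⟨hn, ?_⟩
  let e : Fin n ≃ V := (Fintype.equivFinOfCardEq hc).symm
  let G : SimpleGraph (Fin n) :=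
    { Adj := fun x y => col (e x) (e y) ≠ none
      symm := ⟨fun x y h => by rw [hsym]; exact h⟩
      loopless := ⟨fun x h => h (hself _)⟩ }
  let f : Sym2 (Fin n) → Fin k := Sym2.lift ⟨fun x y => (col (e x) (e y)).getD ⟨0, hk⟩,
    fun x y => by simp only [hsym (e x) (e y)]⟩
  have hC : ∀ j x y [Decidable (G.Adj x y ∧ f s(x, y) = j)],
      (if G.Adj x y ∧ f s(x, y) = j then 1 else 0) = C col j (e x) (e y) := by
    intro j x y _
    have h1 : (G.Adj x y ∧ f s(x, y) = j) ↔ col (e x) (e y) = some j := by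
      simp only [G, f, Sym2.lift_mk]
      rcases Option.eq_none_or_eq_some (col (e x) (e y)) with h | ⟨c, h⟩ <;> simp [h]
    simp only [C, h1]
  have hA : ∀ x y [Decidable (G.Adj x y)], (if G.Adj x y then 1 else 0) = A col (e x) (e y) := by
    intro x y _
    have h1 : G.Adj x y ↔ ¬ col (e x) (e y) = none := Iff.rfl
    by_cases h : col (e x) (e y) = none
    · rw [if_neg (by rw [h1]; exact not_not.2 h), A, if_pos h]
    · rw [if_pos (h1.2 h), A, if_neg h]
  refine ⟨G, f, ?_, ?_⟩
  · intro v j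
    rw [cdeg, card_filter]
    rw [← ha (e v) j, ← e.sum_comp (fun w => C col j (e v) w)]
    exact sum_congr rfl fun w _ => by convert hC j v w
  · intro v j
    rw [tN, card_filter, ← univ_product_univ, sum_product]
    rw [← ht (e v) j, ← e.sum_comp (fun x => ∑ y, C col j x y * A col (e v) x * A col (e v) y)]
    refine sum_congr rfl fun x _ => ?_
    rw [← e.sum_comp (fun y => C col j (e x) y * A col (e v) (e x) * A col (e v) y)]
    refine sum_congr rfl fun y _ => ?_
    rw [← hC, ← hA, ← hA]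
    by_cases h1 : G.Adj x y <;> by_cases h2 : f s(x, y) = j <;> by_cases h3 : G.Adj v x <;>
      by_cases h4 : G.Adj v y <;> simp [h1, h2, h3, h4]

theorem arith_small_large (q J X Γ d t u : ℕ) (hJ : 2 * q + 1 ≤ J)
    (hΓ : Γ ≤ q * (2 * q ^ 2 + 2 + q)) (hu : J = t + u) (hX : (q + J + 4) ^ 2 ≤ X) (hd : 1 ≤ d) :
    2 * (X + (J + t + 2)) + 2 * (Γ * X) + (u + 2) * (u + 1) < J * X * (2 * q ^ 2 + 2 + d) := by
  have h1 : (2 * q + 1) * X * (2 * q ^ 2 + 3) ≤ J * X * (2 * q ^ 2 + 2 + d) :=
    Nat.mul_le_mul (Nat.mul_le_mul_right _ hJ) (by omega)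
  have h2 : Γ * X ≤ q * (2 * q ^ 2 + 2 + q) * X := Nat.mul_le_mul_right _ hΓ
  have h3 : (u + 2) * (u + 1) + 2 * (J + t + 2) < (q + J + 4) ^ 2 := by
    subst hu
    nlinarith [Nat.zero_le (q * t), Nat.zero_le (q * u), Nat.zero_le (t * u)]
  have h4 : (2 * q + 1) * X * (2 * q ^ 2 + 3) =
      2 * X + 2 * (q * (2 * q ^ 2 + 2 + q) * X) + (2 * q + 1) * X := by ring
  have h5 : X ≤ (2 * q + 1) * X := Nat.le_mul_of_pos_left _ (by omega)
  omega

/-- The lower-bound construction: for `3 q < k` there are flip colourings with the degree in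
position `q` fixed and all later degrees arbitrarily large. -/
theorem lower (k q : ℕ) (hq : 1 ≤ q) (hqk : 3 * q < k) (N : ℕ) :
    ∃ (a : Fin k → ℕ) (n : ℕ) (G : SimpleGraph (Fin n)) (f : Sym2 (Fin n) → Fin k), 0 < n ∧
      StrictMono a ∧ (∀ j, 0 < a j) ∧ (∀ j : Fin k, j.1 + 1 = q → a j = 2 * q ^ 2 + 2 * q + 1) ∧
      (∀ j : Fin k, q ≤ j.1 → N < a j) ∧ (∀ v j, cdeg G f v j = a j) ∧
      ∀ v i j, i < j → bN G f v j < bN G f v i := by
  classical
  have hk : 0 < k := by omega
  obtain ⟨κ, hκ, hall⟩ := prof_all (k := k)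
    (fun j => if j.1 < q then 2 * q ^ 2 + 2 + (q - j.1) else 0)
  obtain ⟨n, hn⟩ := hall (fun j => if j.1 < q then 0 else N + (k + 4) ^ 2)
    (fun j => if j.1 < q then 0 else k - j.1 + 2) (fun j => if j.1 < q then 2 * j.1 else
      2 * (j.1 - q))
  obtain ⟨hn0, G, f, hG1, hG2⟩ := exists_graph hk hn
  -- the two sums
  have hm : ∑ j : Fin k, (if j.1 < q then 0 else N + (k + 4) ^ 2) =
      (k - q) * (N + (k + 4) ^ 2) := by
    have h0 := card_filter_add_card_filter_not (s := (univ : Finset (Fin k)))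
      (fun j : Fin k => j.1 < q)
    have h01 : (univ.filter (fun j : Fin k => j.1 < q)).card = q := by
      rw [Fin.card_filter_val_lt]
      omega
    rw [card_univ, Fintype.card_fin, h01] at h0
    have h1 : ∀ j : Fin k, (if j.1 < q then 0 else N + (k + 4) ^ 2) =
        if ¬ j.1 < q then N + (k + 4) ^ 2 else 0 := by
      intro j; split_ifs <;> rfl
    simp only [h1]
    rw [← sum_filter, sum_const, smul_eq_mul]
    congr 1
    omega
  have hg : ∑ j : Fin k, (if j.1 < q then 2 * q ^ 2 + 2 + (q - j.1) else 0) ≤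
      q * (2 * q ^ 2 + 2 + q) := by
    have h01 : (univ.filter (fun j : Fin k => j.1 < q)).card = q := by
      rw [Fin.card_filter_val_lt]
      omega
    calc ∑ j : Fin k, (if j.1 < q then 2 * q ^ 2 + 2 + (q - j.1) else 0)
        ≤ ∑ j : Fin k, (if j.1 < q then 2 * q ^ 2 + 2 + q else 0) := by
          refine sum_le_sum fun j _ => ?_
          split_ifs <;> omega
      _ = _ := by rw [← sum_filter, sum_const, smul_eq_mul, h01]
  rw [hm] at hG2
  generalize hΓ : ∑ j : Fin k, (if j.1 < q then 2 * q ^ 2 + 2 + (q - j.1) else 0) = Γ at *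
  generalize hM : N + (k + 4) ^ 2 = M at *
  have hκM : N + (k + 4) ^ 2 ≤ κ * M := by
    rw [hM]; exact Nat.le_mul_of_pos_left _ hκ
  have ha : ∀ v j, cdeg G f v j = if j.1 < q then 2 * q ^ 2 + 2 + q + j.1 else
      κ * M + (k + j.1 + 2 - 2 * q) := by
    intro v j
    rw [hG1 v j]
    have := j.2
    split_ifs
    · rw [mul_zero]; omega
    · omega
  have hb : ∀ v j, bN G f v j = if j.1 < q then 2 * (2 * q ^ 2 + 2 + q + j.1) +
      (k - q) * (κ * M) * (2 * q ^ 2 + 2 + (q - j.1)) else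
      2 * (κ * M + (k + j.1 + 2 - 2 * q)) + 2 * (Γ * (κ * M)) +
        (k - j.1 + 2) * (k - j.1 + 1) := by
    intro v j
    rw [bN_eq, ha, hG2 v j]
    split_ifs
    · ring
    · have h0 : k - j.1 + 2 - 1 = k - j.1 + 1 := by omega
      rw [h0]
      ring
  generalize hX : κ * M = X at *
  refine ⟨fun j => if j.1 < q then 2 * q ^ 2 + 2 + q + j.1 else X + (k + j.1 + 2 - 2 * q),
    n, G, f, hn0, ?_, ?_, ?_, ?_, ha, ?_⟩
  · intro i j hij
    have hij' : i.1 < j.1 := hij
    have := j.2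
    dsimp only
    split_ifs with h1 h2 h2
    · omega
    · have : 2 * q ^ 2 + 2 + q + i.1 < (k + 4) ^ 2 := by nlinarith
      omega
    · omega
    · omega
  · intro j
    dsimp only
    split_ifs <;> omega
  · intro j hj
    dsimp only
    rw [if_pos (by omega)]
    omega
  · intro j hj
    dsimp only
    rw [if_neg (by omega)]
    have : 0 < (k + 4) ^ 2 := by positivity
    omega
  · intro v i j hij
    have hij' : i.1 < j.1 := hij
    have hjk := j.2
    rw [hb, hb]
    split_ifs with h1 h2 h2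
    · have e1 : 2 * q ^ 2 + 2 + (q - i.1) = (2 * q ^ 2 + 2 + (q - j.1)) + (j.1 - i.1) := by omega
      rw [e1, mul_add ((k - q) * X) (2 * q ^ 2 + 2 + (q - j.1)) (j.1 - i.1)]
      have h3 : 3 ≤ (k - q) * X := by
        have h4 : 1 ≤ k - q := by omega
        have h5 : 3 ≤ X := by
          have : 4 ^ 2 ≤ (k + 4) ^ 2 := Nat.pow_le_pow_left (by omega) 2
          omega
        calc 3 = 1 * 3 := rfl
          _ ≤ (k - q) * X := Nat.mul_le_mul h4 h5
      have h6 : 3 * (j.1 - i.1) ≤ (k - q) * X * (j.1 - i.1) := Nat.mul_le_mul_right _ h3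
      generalize (k - q) * X * (j.1 - i.1) = P at *
      generalize (k - q) * X * (2 * q ^ 2 + 2 + (q - j.1)) = Q at *
      omega
    · omega
    · have h3 := arith_small_large q (k - q) X Γ (q - i.1) (j.1 - q) (k - j.1) (by omega) hg
        (by omega) (by
          have e : q + (k - q) + 4 = k + 4 := by omega
          rw [e]; omega) (by omega)
      have e2 : k + j.1 + 2 - 2 * q = k - q + (j.1 - q) + 2 := by omega
      rw [e2]
      omega
    · have e1 : k - i.1 = (k - j.1) + (j.1 - i.1) := by omega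
      have h3 : (k - j.1 + 2) * (k - j.1 + 1) + 2 * (j.1 - i.1) + 1 ≤
          (k - i.1 + 2) * (k - i.1 + 1) := by
        rw [e1]
        have h4 : 1 ≤ j.1 - i.1 := by omega
        generalize k - j.1 = u
        generalize j.1 - i.1 = d at *
        nlinarith [Nat.zero_le (u * d)]
      omega

end Pool.Agent.Q271.FL
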