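import Pool.Agent.Q271.FL.Prof

/-!
# Flip colourings: the lexicographic product and the basic profiles
-/

namespace Pool.Agent.Q271.FL

open Finset

variable {k : ℕ}

/-- Lexicographic product of a triangle-free coloured graph `H` with a coloured graph `D`. -/
theorem prof_lex {n n' : ℕ} {m g t' : Fin k → ℕ} (h : Prof n m 0) (h' : Prof n' g t') :
    Prof (n * n') (fun j => n' * m j + g j)
      (fun j => 2 * ((∑ i, g i) * (n' * m j)) + (∑ i, m i) * (n' * g j) + t' j) := by
  classical
  obtain ⟨V, _, col, hc, hn, hsym, hself, ha, ht⟩ := h
  obtain ⟨W, _, col', hc', hn', hsym', hself', ha', ht'⟩ := h'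
  let K : V × W → V × W → Option (Fin k) := fun p q =>
    if p.1 = q.1 then col' p.2 q.2 else col p.1 q.1
  have hKC : ∀ j (p q : V × W), C K j p q = (if p.1 = q.1 then C col' j p.2 q.2 else 0) +
      C col j p.1 q.1 := by
    intro j p q
    simp only [C, K]
    by_cases h1 : p.1 = q.1 <;> simp [h1, hself]
  have hKA : ∀ (p q : V × W), A K p q = (if p.1 = q.1 then A col' p.2 q.2 else 0) +
      A col p.1 q.1 := by
    intro p q
    simp only [A, K]
    by_cases h1 : p.1 = q.1 <;> simp [h1, hself]
  have hAm := sum_A ha
  have hAg := sum_A ha'
  refine ⟨V × W, inferInstance, K, by rw [Fintype.card_prod, hc, hc'], Nat.mul_pos hn hn', ?_, ?_,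
    ?_, ?_⟩
  · intro p q
    simp only [K, eq_comm (a := p.1), hsym p.1, hsym' p.2]
  · intro p
    simp only [K, if_true, hself']
  · rintro ⟨x, y⟩ j
    simp only [hKC, ← univ_product_univ, sum_product, sum_add_distrib]
    rw [← ha x j, ← ha' y j, add_comm]
    congr 1
    · simp only [sum_const, card_univ, hc', smul_eq_mul, ← mul_sum]
    · rw [sum_comm]
      refine sum_congr rfl fun w _ => ?_
      simp
  · rintro ⟨x, u⟩ j
    have hpt : ∀ y v z w, C K j (y, v) (z, w) * A K (x, u) (y, v) * A K (x, u) (z, w) =
        C col j y z * A col x y * A col x z +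
        (if x = z then C col j x y * A col' u w else 0) +
        (if x = y then C col j x z * A col' u v else 0) +
        (if y = z then A col x y * C col' j v w else 0) +
        (if x = y then if x = z then C col' j v w * A col' u v * A col' u w else 0 else 0) := by
      intro y v z w
      rw [hKC, hKA, hKA]
      dsimp only
      by_cases h1 : x = y
      · subst h1
        by_cases h2 : x = z
        · subst h2
          simp [A_self hself, C_self hself]
        · have := C_mul_A col j x z
          simp only [if_true, h2, if_false, A_self hself, C_self hself, add_zero, zero_add,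
            mul_zero, zero_mul]
          calc C col j x z * A col' u v * A col x z = (C col j x z * A col x z) * A col' u v := by
                ring
            _ = _ := by rw [this]
      · by_cases h2 : x = z
        · subst h2
          have h3 : y ≠ x := fun h => h1 h.symm
          have := C_mul_A col j x y
          simp only [if_true, h1, h3, if_false, A_self hself, C_self hself, add_zero, zero_add,
            mul_zero]
          calc C col j y x * A col x y * A col' u w = (C col j x y * A col x y) * A col' u w := by
                rw [C_comm hsym j y x]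
            _ = _ := by rw [this]
        · by_cases h3 : y = z
          · subst h3
            have := A_mul_A col x y
            simp only [if_true, h1, if_false, C_self hself, add_zero, zero_add, zero_mul]
            calc C col' j v w * A col x y * A col x y
                = (A col x y * A col x y) * C col' j v w := by ring
              _ = _ := by rw [this]
          · simp only [h1, h2, h3, if_false, add_zero, zero_add]
    simp only [← univ_product_univ, sum_product, hpt, sum_add_distrib]
    have s1 : ∑ y, ∑ v : W, ∑ z, ∑ w : W, C col j y z * A col x y * A col x z = 0 := by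
      have h0 : ∀ y z, C col j y z * A col x y * A col x z = 0 := by
        have := ht x j
        rw [Pi.zero_apply, Finset.sum_eq_zero_iff] at this
        intro y z
        have h1 := this y (mem_univ y)
        rw [Finset.sum_eq_zero_iff] at h1
        exact h1 z (mem_univ z)
      simp [h0]
    have s2 : ∑ y, ∑ v : W, ∑ z, ∑ w, (if x = z then C col j x y * A col' u w else 0) =
        (∑ i, g i) * (n' * m j) := by
      have e : ∀ y, ∑ z, ∑ w, (if x = z then C col j x y * A col' u w else 0) =
          C col j x y * ∑ i, g i := by
        intro y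
        rw [sum_comm]
        simp only [sum_ite_eq, mem_univ, if_true, ← mul_sum, hAg]
      simp only [e, sum_const, card_univ, hc', smul_eq_mul]
      rw [← mul_sum, ← sum_mul, ha]
      ring
    have s3 : ∑ y, ∑ v, ∑ z, ∑ w : W, (if x = y then C col j x z * A col' u v else 0) =
        (∑ i, g i) * (n' * m j) := by
      have e : ∀ y v, ∑ z, ∑ w : W, (if x = y then C col j x z * A col' u v else 0) =
          if x = y then n' * m j * A col' u v else 0 := by
        intro y v
        by_cases h : x = y
        · simp only [h, if_true, sum_const, card_univ, hc', smul_eq_mul, ← mul_sum, ← sum_mul]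
          rw [← h, ha]
          ring
        · simp [h]
      simp only [e]
      rw [sum_comm]
      simp only [sum_ite_eq, mem_univ, if_true, ← mul_sum, hAg]
      ring
    have s4 : ∑ y, ∑ v, ∑ z, ∑ w, (if y = z then A col x y * C col' j v w else 0) =
        (∑ i, m i) * (n' * g j) := by
      have e : ∀ y v, ∑ z, ∑ w, (if y = z then A col x y * C col' j v w else 0) =
          A col x y * g j := by
        intro y v
        rw [sum_comm]
        simp only [sum_ite_eq, mem_univ, if_true, ← mul_sum, ha']
      simp only [e, sum_const, card_univ, hc', smul_eq_mul]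
      rw [← mul_sum, ← sum_mul, hAm]
      ring
    have s5 : ∑ y, ∑ v, ∑ z, ∑ w, (if x = y then if x = z then C col' j v w * A col' u v *
        A col' u w else 0 else 0) = t' j := by
      have e : ∀ y v, ∑ z, ∑ w, (if x = y then if x = z then C col' j v w * A col' u v *
          A col' u w else 0 else 0) =
          if x = y then ∑ w, C col' j v w * A col' u v * A col' u w else 0 := by
        intro y v
        by_cases h : x = y
        · simp only [h, if_true]
          rw [sum_comm]
          simp
        · simp [h]
      simp only [e]
      rw [sum_comm]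
      simp only [sum_ite_eq, mem_univ, if_true]
      exact ht' u j
    rw [s1, s2, s3, s4, s5]
    ring

/-! ### Basic profiles -/

/-- `K_{m,m}` in one colour -/
theorem prof_bip (j0 : Fin k) (m : ℕ) : ∃ n, Prof n (Pi.single j0 m : Fin k → ℕ) 0 := by
  classical
  rcases Nat.eq_zero_or_pos m with rfl | hm
  · exact ⟨1, by rw [Pi.single_zero]; exact prof_zero⟩
  refine ⟨2 * m, Bool × Fin m, inferInstance,
    fun p q => if p.1 = q.1 then none else some j0, ?_, by omega, ?_, ?_, ?_, ?_⟩
  · simp
  · intro p q; simp only [eq_comm (a := p.1)]
  · intro p; simp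
  · rintro ⟨a, x⟩ j
    simp only [C, ← univ_product_univ, sum_product]
    by_cases hj : j = j0
    · subst hj
      rw [Pi.single_eq_same]
      cases a <;> simp
    · rw [Pi.single_eq_of_ne hj]
      have hj' : j0 ≠ j := fun h => hj h.symm
      cases a <;> simp [hj']
  · rintro ⟨a, x⟩ j
    rw [Pi.zero_apply]
    refine sum_eq_zero fun p _ => sum_eq_zero fun q _ => ?_
    obtain ⟨b, y⟩ := p
    obtain ⟨c, z⟩ := q
    simp only [C, A]
    cases a <;> cases b <;> cases c <;> simp

/-- `K_{ν+1}` in one colour -/
theorem prof_clique (j0 : Fin k) (ν : ℕ) :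
    ∃ n, Prof n (Pi.single j0 ν : Fin k → ℕ) (Pi.single j0 (ν * (ν - 1))) := by
  classical
  refine ⟨ν + 1, Fin (ν + 1), inferInstance,
    fun p q => if p = q then none else some j0, by simp, by omega, ?_, ?_, ?_, ?_⟩
  · intro p q; simp only [eq_comm (a := p)]
  · intro p; simp
  · intro v j
    by_cases hj : j = j0
    · subst hj
      rw [Pi.single_eq_same]
      have : ∀ w, C (fun p q : Fin (ν + 1) => if p = q then none else some j) j v w =
          if w ∈ univ.erase v then 1 else 0 := by
        intro w
        by_cases h : v = w
        · simp [C, h]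
        · simp [C, h, Ne.symm h]
      simp only [this]
      rw [sum_ite_mem, univ_inter, sum_const, card_erase_of_mem (mem_univ v), card_univ,
        Fintype.card_fin]
      simp
    · rw [Pi.single_eq_of_ne hj]
      have hj' : j0 ≠ j := fun h => hj h.symm
      refine sum_eq_zero fun w _ => ?_
      by_cases h : v = w <;> simp [C, h, hj']
  · intro v j
    by_cases hj : j = j0
    · subst hj
      rw [Pi.single_eq_same]
      have : ∀ x y, C (fun p q : Fin (ν + 1) => if p = q then none else some j) j x y *
          A (fun p q : Fin (ν + 1) => if p = q then none else some j) v x *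
          A (fun p q : Fin (ν + 1) => if p = q then none else some j) v y =
          if x ∈ univ.erase v then (if y ∈ (univ.erase v).erase x then 1 else 0) else 0 := by
        intro x y
        by_cases h : v = x
        · simp [C, A, h]
        · by_cases h2 : v = y
          · simp [C, A, h, h2]
          · by_cases h3 : x = y
            · simp [C, A, h, h2, h3, Ne.symm h, Ne.symm h2]
            · simp [C, A, h, h2, h3, Ne.symm h, Ne.symm h2, Ne.symm h3]
      simp only [this]
      have e : ∀ x, ∑ y, (if x ∈ univ.erase v then (if y ∈ (univ.erase v).erase x then 1 else 0)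
          else 0) = if x ∈ univ.erase v then ν - 1 else 0 := by
        intro x
        by_cases h : x ∈ univ.erase v
        · simp only [h, if_true]
          rw [sum_ite_mem, univ_inter, sum_const, card_erase_of_mem h,
            card_erase_of_mem (mem_univ v), card_univ, Fintype.card_fin]
          simp
        · simp [h]
      simp only [e]
      rw [sum_ite_mem, univ_inter, sum_const, card_erase_of_mem (mem_univ v), card_univ,
        Fintype.card_fin]
      simp
    · rw [Pi.single_eq_of_ne hj]
      have hj' : j0 ≠ j := fun h => hj h.symm
      refine sum_eq_zero fun x _ => sum_eq_zero fun y _ => ?_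
      by_cases h : x = y <;> simp [C, h, hj']

/-- Assemble a profile from one-colour profiles. -/
theorem prof_assemble (a t : Fin k → ℕ)
    (h : ∀ j, ∃ n, Prof n (Pi.single j (a j) : Fin k → ℕ) (Pi.single j (t j))) :
    ∃ n, Prof n a t := by
  classical
  have key : ∀ s : Finset (Fin k), ∃ n, Prof n (∑ j ∈ s, (Pi.single j (a j) : Fin k → ℕ))
      (∑ j ∈ s, (Pi.single j (t j) : Fin k → ℕ)) := by
    intro s
    induction s using Finset.induction_on with
    | empty => exact ⟨1, by simpa using prof_zero⟩
    | insert j s hj ih =>
      obtain ⟨n, hn⟩ := ih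
      obtain ⟨n', hn'⟩ := h j
      refine ⟨n' * n, ?_⟩
      rw [sum_insert hj, sum_insert hj]
      exact prof_box hn' hn
  obtain ⟨n, hn⟩ := key univ
  rw [Finset.univ_sum_single, Finset.univ_sum_single] at hn
  exact ⟨n, hn⟩

theorem prof_tf (m : Fin k → ℕ) : ∃ n, Prof n m 0 := by
  refine prof_assemble m 0 fun j => ?_
  obtain ⟨n, hn⟩ := prof_bip j (m j)
  exact ⟨n, by rw [Pi.zero_apply, Pi.single_zero]; exact hn⟩

theorem prof_cliques (ν : Fin k → ℕ) : ∃ n, Prof n ν (fun j => ν j * (ν j - 1)) :=
  prof_assemble ν _ fun j => prof_clique j (ν j)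

/-- The combined construction. -/
theorem prof_all (g : Fin k → ℕ) : ∃ κ, 0 < κ ∧ ∀ m ν α : Fin k → ℕ,
    ∃ n, Prof n (fun j => κ * m j + g j + ν j + α j)
      (fun j => 2 * ((∑ i, g i) * (κ * m j)) + (∑ i, m i) * (κ * g j) + ν j * (ν j - 1)) := by
  obtain ⟨κ, hκ⟩ := prof_tf g
  refine ⟨κ, ?_, ?_⟩
  · obtain ⟨V, _, _, _, hn, _⟩ := hκ
    exact hn
  · intro m ν α
    obtain ⟨n1, h1⟩ := prof_tf m
    obtain ⟨n2, h2⟩ := prof_cliques ν
    obtain ⟨n3, h3⟩ := prof_tf α
    refine ⟨n1 * κ * n2 * n3, ?_⟩
    have := prof_box (prof_box (prof_lex h1 hκ) h2) h3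
    have e1 : ((fun j => κ * m j + g j) + ν + α) = (fun j => κ * m j + g j + ν j + α j) := by
      funext j; rfl
    have e2 : ((fun j => 2 * ((∑ i, g i) * (κ * m j)) + (∑ i, m i) * (κ * g j) +
        (0 : Fin k → ℕ) j) + (fun j => ν j * (ν j - 1)) + (0 : Fin k → ℕ)) =
        (fun j => 2 * ((∑ i, g i) * (κ * m j)) + (∑ i, m i) * (κ * g j) + ν j * (ν j - 1)) := by
      funext j; simp
    rw [e1, e2] at this
    exact this

end Pool.Agent.Q271.FL
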