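import Pool.Agent.Q271.FL.Upper

/-!
# Flip colourings: profiles and their products
-/

namespace Pool.Agent.Q271.FL

open Finset

variable {k : ℕ}

/-- indicator of the pair `x y` has colour `j` -/
def C {V : Type} (col : V → V → Option (Fin k)) (j : Fin k) (x y : V) : ℕ :=
  if col x y = some j then 1 else 0

/-- indicator of the pair `x y` is coloured -/
def A {V : Type} (col : V → V → Option (Fin k)) (x y : V) : ℕ :=
  if col x y = none then 0 else 1

/-- `Prof n a t`: there is a coloured graph on `n > 0` vertices where every vertex has `a j` edges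
of colour `j`, and `t j` ordered pairs of neighbours joined by an edge of colour `j`. -/
def Prof (n : ℕ) (a t : Fin k → ℕ) : Prop :=
  ∃ (V : Type) (_ : Fintype V) (col : V → V → Option (Fin k)),
    Fintype.card V = n ∧ 0 < n ∧ (∀ x y, col x y = col y x) ∧ (∀ x, col x x = none) ∧
    (∀ v j, ∑ w, C col j v w = a j) ∧
    (∀ v j, ∑ x, ∑ y, C col j x y * A col v x * A col v y = t j)

theorem sum_C {V : Type} (col : V → V → Option (Fin k)) (x y : V) :
    ∑ j, C col j x y = A col x y := by
  unfold C A
  rcases h : col x y with _ | j0
  · simp
  · simp [Finset.sum_ite_eq]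

theorem C_mul_A {V : Type} (col : V → V → Option (Fin k)) (j : Fin k) (x y : V) :
    C col j x y * A col x y = C col j x y := by
  unfold C A
  rcases h : col x y with _ | j0 <;> simp

theorem A_mul_A {V : Type} (col : V → V → Option (Fin k)) (x y : V) :
    A col x y * A col x y = A col x y := by
  unfold A
  rcases h : col x y with _ | j0 <;> simp

theorem C_comm {V : Type} {col : V → V → Option (Fin k)} (h : ∀ x y, col x y = col y x)
    (j : Fin k) (x y : V) : C col j x y = C col j y x := by
  unfold C; rw [h]

theorem A_comm {V : Type} {col : V → V → Option (Fin k)} (h : ∀ x y, col x y = col y x)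
    (x y : V) : A col x y = A col y x := by
  unfold A; rw [h]

theorem C_self {V : Type} {col : V → V → Option (Fin k)} (h : ∀ x, col x x = none)
    (j : Fin k) (x : V) : C col j x x = 0 := by
  unfold C; rw [h]; simp

theorem A_self {V : Type} {col : V → V → Option (Fin k)} (h : ∀ x, col x x = none)
    (x : V) : A col x x = 0 := by
  unfold A; rw [h]; simp

theorem sum_A {V : Type} [Fintype V] {col : V → V → Option (Fin k)} {a : Fin k → ℕ}
    (h : ∀ v j, ∑ w, C col j v w = a j) (v : V) : ∑ w, A col v w = ∑ j, a j := by
  simp only [← sum_C]
  rw [sum_comm]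
  exact sum_congr rfl fun j _ => h v j

theorem prof_zero : Prof 1 (0 : Fin k → ℕ) 0 := by
  refine ⟨Unit, inferInstance, fun _ _ => none, by simp, one_pos, fun _ _ => rfl, fun _ => rfl,
    ?_, ?_⟩ <;> intro v j <;> simp [C]

/-! ### Cartesian product -/

theorem prof_box {n n' : ℕ} {a t a' t' : Fin k → ℕ} (h : Prof n a t) (h' : Prof n' a' t') :
    Prof (n * n') (a + a') (t + t') := by
  classical
  obtain ⟨V, _, col, hc, hn, hsym, hself, ha, ht⟩ := h
  obtain ⟨W, _, col', hc', hn', hsym', hself', ha', ht'⟩ := h'
  let K : V × W → V × W → Option (Fin k) := fun p q =>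
    if p.1 = q.1 then col' p.2 q.2 else if p.2 = q.2 then col p.1 q.1 else none
  have hKC : ∀ j (p q : V × W), C K j p q = (if p.1 = q.1 then C col' j p.2 q.2 else 0) +
      (if p.2 = q.2 then C col j p.1 q.1 else 0) := by
    intro j p q
    simp only [C, K]
    by_cases h1 : p.1 = q.1 <;> by_cases h2 : p.2 = q.2 <;> simp [h1, h2, hself, hself']
  have hKA : ∀ (p q : V × W), A K p q = (if p.1 = q.1 then A col' p.2 q.2 else 0) +
      (if p.2 = q.2 then A col p.1 q.1 else 0) := by
    intro p q
    simp only [A, K]
    by_cases h1 : p.1 = q.1 <;> by_cases h2 : p.2 = q.2 <;> simp [h1, h2, hself, hself']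
  refine ⟨V × W, inferInstance, K, by rw [Fintype.card_prod, hc, hc'], Nat.mul_pos hn hn', ?_, ?_,
    ?_, ?_⟩
  · intro p q
    simp only [K, eq_comm (a := p.1), eq_comm (a := p.2), hsym p.1, hsym' p.2]
  · intro p
    simp only [K, if_true, hself']
  · rintro ⟨x, y⟩ j
    simp only [hKC, ← univ_product_univ, sum_product, sum_add_distrib]
    rw [Pi.add_apply, ← ha x j, ← ha' y j, add_comm]
    congr 1
    · refine sum_congr rfl fun w _ => ?_
      simp
    · rw [sum_comm]
      simp
  · rintro ⟨x, y⟩ j
    have hpt : ∀ p q r s, C K j (p, q) (r, s) * A K (x, y) (p, q) * A K (x, y) (r, s) =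
        (if x = p then if x = r then C col' j q s * A col' y q * A col' y s else 0 else 0) +
        (if y = q then if y = s then C col j p r * A col x p * A col x r else 0 else 0) := by
      intro p q r s
      rw [hKC, hKA, hKA]
      dsimp only
      by_cases h1 : x = p <;> by_cases h2 : x = r <;> by_cases h3 : y = q <;>
        by_cases h4 : y = s
      all_goals try subst h1
      all_goals try subst h2
      all_goals try subst h3
      all_goals try subst h4
      all_goals simp_all [A_self hself, A_self hself', C_self hself, C_self hself']
    simp only [← univ_product_univ, sum_product, hpt, sum_add_distrib]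
    rw [Pi.add_apply, ← ht x j, ← ht' y j, add_comm]
    congr 1
    · have e1 : ∀ p q, ∑ r, ∑ s, (if y = q then if y = s then C col j p r * A col x p * A col x r
          else 0 else 0) = if y = q then ∑ r, C col j p r * A col x p * A col x r else 0 := by
        intro p q
        by_cases h : y = q
        · simp [h]
        · simp [h]
      simp only [e1]
      simp
    · have e1 : ∀ p q, ∑ r, ∑ s, (if x = p then if x = r then C col' j q s * A col' y q *
          A col' y s else 0 else 0) =
          if x = p then ∑ s, C col' j q s * A col' y q * A col' y s else 0 := by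
        intro p q
        by_cases h : x = p
        · simp only [h, if_true]
          rw [sum_comm]
          simp
        · simp [h]
      simp only [e1]
      rw [sum_comm]
      simp

end Pool.Agent.Q271.FL
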