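import Mathlib

/-!
# Flip colourings: definitions and the upper bound `3 q(k) < k`
-/

namespace Pool.Agent.Q271.FL

open Finset

variable {V : Type*} [Fintype V] {k : ℕ}

open Classical in
/-- the number of edges of colour `j` at `v` -/
noncomputable def cdeg (G : SimpleGraph V) (f : Sym2 V → Fin k) (v : V) (j : Fin k) : ℕ :=
  #{w | G.Adj v w ∧ f s(v, w) = j}

/-- `u` lies in the closed neighbourhood of `v` -/
def InN (G : SimpleGraph V) (v u : V) : Prop := u = v ∨ G.Adj v u

open Classical in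
/-- the number of ordered pairs that form an edge of colour `j` in the closed neighbourhood -/
noncomputable def bN (G : SimpleGraph V) (f : Sym2 V → Fin k) (v : V) (j : Fin k) : ℕ :=
  #{p : V × V | G.Adj p.1 p.2 ∧ f s(p.1, p.2) = j ∧ InN G v p.1 ∧ InN G v p.2}

open Classical in
/-- the number of ordered pairs of neighbours of `v` joined by an edge of colour `j` -/
noncomputable def tN (G : SimpleGraph V) (f : Sym2 V → Fin k) (v : V) (j : Fin k) : ℕ :=
  #{p : V × V | G.Adj p.1 p.2 ∧ f s(p.1, p.2) = j ∧ G.Adj v p.1 ∧ G.Adj v p.2}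

theorem bN_eq (G : SimpleGraph V) (f : Sym2 V → Fin k) (v : V) (j : Fin k) :
    bN G f v j = 2 * cdeg G f v j + tN G f v j := by
  classical
  have h1 : ({p : V × V | G.Adj p.1 p.2 ∧ f s(p.1, p.2) = j ∧ InN G v p.1 ∧ InN G v p.2} : Finset _)
      = (({w | G.Adj v w ∧ f s(v, w) = j} : Finset V).image (fun w => (v, w)) ∪
        ({w | G.Adj v w ∧ f s(v, w) = j} : Finset V).image (fun w => (w, v))) ∪
        ({p : V × V | G.Adj p.1 p.2 ∧ f s(p.1, p.2) = j ∧ G.Adj v p.1 ∧ G.Adj v p.2} : Finset _) := by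
    ext ⟨x, y⟩
    simp only [mem_filter, mem_univ, true_and, mem_union, mem_image, Prod.mk.injEq]
    constructor
    · rintro ⟨hxy, hf, hx | hx, hy | hy⟩
      · subst hx; subst hy; exact absurd hxy (G.irrefl)
      · subst hx
        exact Or.inl (Or.inl ⟨y, ⟨hxy, hf⟩, rfl, rfl⟩)
      · subst hy
        exact Or.inl (Or.inr ⟨x, ⟨hxy.symm, by rw [Sym2.eq_swap]; exact hf⟩, rfl, rfl⟩)
      · exact Or.inr ⟨hxy, hf, hx, hy⟩
    · rintro ((⟨w, ⟨hw, hf⟩, rfl, rfl⟩ | ⟨w, ⟨hw, hf⟩, rfl, rfl⟩) | ⟨h1, h2, h3, h4⟩)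
      · exact ⟨hw, hf, Or.inl rfl, Or.inr hw⟩
      · exact ⟨hw.symm, by rw [Sym2.eq_swap]; exact hf, Or.inr hw, Or.inl rfl⟩
      · exact ⟨h1, h2, Or.inr h3, Or.inr h4⟩
  have d1 : Disjoint (({w | G.Adj v w ∧ f s(v, w) = j} : Finset V).image (fun w => (v, w)))
      (({w | G.Adj v w ∧ f s(v, w) = j} : Finset V).image (fun w => (w, v))) := by
    rw [Finset.disjoint_left]
    rintro ⟨x, y⟩ h1 h2
    simp only [mem_image, mem_filter, mem_univ, true_and, Prod.mk.injEq] at h1 h2
    obtain ⟨w, ⟨hw, -⟩, rfl, rfl⟩ := h1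
    obtain ⟨w', ⟨hw', -⟩, rfl, h⟩ := h2
    rw [h] at hw'
    exact G.irrefl hw'
  have d2 : Disjoint (({w | G.Adj v w ∧ f s(v, w) = j} : Finset V).image (fun w => (v, w)) ∪
        ({w | G.Adj v w ∧ f s(v, w) = j} : Finset V).image (fun w => (w, v)))
        ({p : V × V | G.Adj p.1 p.2 ∧ f s(p.1, p.2) = j ∧ G.Adj v p.1 ∧ G.Adj v p.2} : Finset _) := by
    rw [Finset.disjoint_left]
    rintro ⟨x, y⟩ h1 h2
    simp only [mem_image, mem_filter, mem_univ, true_and, Prod.mk.injEq, mem_union] at h1 h2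
    rcases h1 with ⟨w, ⟨hw, -⟩, rfl, rfl⟩ | ⟨w, ⟨hw, -⟩, rfl, rfl⟩
    · exact G.irrefl h2.2.2.1
    · exact G.irrefl h2.2.2.2
  rw [bN, h1, card_union_of_disjoint d2, card_union_of_disjoint d1,
    card_image_of_injective _ (fun a b h => (Prod.mk.inj h).2),
    card_image_of_injective _ (fun a b h => (Prod.mk.inj h).1), cdeg, tN]
  ring

theorem tri_point (a b c s t u : ℕ) (ha : a ≤ 1) (hb : b ≤ 1) (hc : c ≤ 1)
    (hs : s = 0 ∨ s = a) (ht : t = 0 ∨ t = b) (hu : u = 0 ∨ u = c) :
    s * b * c + a * t * c + a * b * u ≤ a * b * c + (s * t + s * u + t * u) := by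
  interval_cases a <;> interval_cases b <;> interval_cases c <;> rcases hs with rfl | rfl <;>
    rcases ht with rfl | rfl <;> rcases hu with rfl | rfl <;> simp

/-- The triangle inequality behind the upper bound, for a symmetric 0/1 matrix `A` and a
symmetric 0/1 matrix `S ≤ A` with constant row sums `s`. -/
theorem tri_ineq (A S : V → V → ℕ) (hA : ∀ x y, A x y = A y x) (hS : ∀ x y, S x y = S y x)
    (hA1 : ∀ x y, A x y ≤ 1) (hSA : ∀ x y, S x y = 0 ∨ S x y = A x y) (s : ℕ)
    (hs : ∀ x, ∑ y, S x y = s) :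
    3 * ∑ v, ∑ x, ∑ y, S x y * A v x * A v y ≤
      ∑ v, ∑ x, ∑ y, A x y * A v x * A v y + 3 * (Fintype.card V * s ^ 2) := by
  -- pointwise inequality
  have hp : ∀ v x y, S x y * A v x * A v y + A x y * S v x * A v y + A x y * A v x * S v y ≤
      A x y * A v x * A v y + (S x y * S v x + S x y * S v y + S v x * S v y) := by
    intro v x y
    have a1 := hA1 x y
    have a2 := hA1 v x
    have a3 := hA1 v y
    exact tri_point _ _ _ _ _ _ a1 a2 a3 (hSA x y) (hSA v x) (hSA v y)
  have hsum : ∑ v, ∑ x, ∑ y, (S x y * A v x * A v y + A x y * S v x * A v y +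
      A x y * A v x * S v y) ≤ ∑ v, ∑ x, ∑ y, (A x y * A v x * A v y +
        (S x y * S v x + S x y * S v y + S v x * S v y)) :=
    sum_le_sum fun v _ => sum_le_sum fun x _ => sum_le_sum fun y _ => hp v x y
  simp only [sum_add_distrib] at hsum
  -- the three sums on the left are equal
  have e1 : ∑ v, ∑ x, ∑ y, A x y * S v x * A v y = ∑ v, ∑ x, ∑ y, S x y * A v x * A v y := by
    -- relabel (v, x, y) -> (x, y, v)
    calc ∑ v, ∑ x, ∑ y, A x y * S v x * A v y
        = ∑ v, ∑ x, ∑ y, S x v * A y x * A y v := by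
          refine sum_congr rfl fun v _ => sum_congr rfl fun x _ => sum_congr rfl fun y _ => ?_
          rw [hA x y, hS v x, hA v y]; ring
      _ = ∑ v, ∑ y, ∑ x, S x v * A y x * A y v :=
          sum_congr rfl fun v _ => sum_comm
      _ = ∑ y, ∑ v, ∑ x, S x v * A y x * A y v := sum_comm
      _ = ∑ y, ∑ x, ∑ v, S x v * A y x * A y v := sum_congr rfl fun y _ => sum_comm
  have e2 : ∑ v, ∑ x, ∑ y, A x y * A v x * S v y = ∑ v, ∑ x, ∑ y, S x y * A v x * A v y := by
    calc ∑ v, ∑ x, ∑ y, A x y * A v x * S v y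
        = ∑ v, ∑ x, ∑ y, S v y * A x v * A x y := by
          refine sum_congr rfl fun v _ => sum_congr rfl fun x _ => sum_congr rfl fun y _ => ?_
          rw [hA v x]; ring
      _ = ∑ x, ∑ v, ∑ y, S v y * A x v * A x y := sum_comm
  -- the bounds for the pairs of `S`-edges
  have f3 : ∑ v, ∑ x, ∑ y, S v x * S v y = Fintype.card V * s ^ 2 := by
    have : ∀ v, ∑ x, ∑ y, S v x * S v y = s ^ 2 := by
      intro v
      simp only [← mul_sum]
      rw [hs v, ← sum_mul, hs v, sq]
    rw [sum_congr rfl fun v _ => this v, sum_const, card_univ, smul_eq_mul]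
  have f1 : ∑ v, ∑ x, ∑ y, S x y * S v x = Fintype.card V * s ^ 2 := by
    rw [sum_comm]
    have : ∀ x, ∑ v, ∑ y, S x y * S v x = s ^ 2 := by
      intro x
      simp only [← sum_mul, hs x, ← mul_sum]
      rw [sum_congr rfl fun v _ => hS v x, hs x, sq]
    rw [sum_congr rfl fun v _ => this v, sum_const, card_univ, smul_eq_mul]
  have f2 : ∑ v, ∑ x, ∑ y, S x y * S v y = Fintype.card V * s ^ 2 := by
    have h : ∀ v, ∑ x, ∑ y, S x y * S v y = ∑ y, ∑ x, S x y * S v y := fun v => sum_comm
    rw [sum_congr rfl fun v _ => h v]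
    have h2 : ∀ v y, ∑ x, S x y * S v y = s * S v y := by
      intro v y
      rw [← sum_mul, sum_congr rfl fun x _ => hS x y, hs y]
    simp only [h2]
    rw [sum_congr rfl fun v _ => (mul_sum _ _ _).symm]
    rw [sum_congr rfl fun v _ => by rw [hs v]]
    rw [sum_const, card_univ, smul_eq_mul, sq]
  rw [e1, e2, f1, f2, f3] at hsum
  omega

theorem sum_tN (G : SimpleGraph V) (f : Sym2 V → Fin k) (P : Fin k → Prop) [DecidablePred P] :
    ∃ (A S : V → V → ℕ), (∀ x y, A x y = A y x) ∧ (∀ x y, S x y = S y x) ∧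
      (∀ x y, A x y ≤ 1) ∧ (∀ x y, S x y = 0 ∨ S x y = A x y) ∧
      (∀ x, ∑ y, S x y = ∑ j ∈ univ.filter P, cdeg G f x j) ∧
      (∀ v, ∑ j ∈ univ.filter P, tN G f v j = ∑ x, ∑ y, S x y * A v x * A v y) ∧
      (∀ v, ∑ j, tN G f v j = ∑ x, ∑ y, A x y * A v x * A v y) := by
  classical
  refine ⟨fun x y => if G.Adj x y then 1 else 0, fun x y => if G.Adj x y ∧ P (f s(x, y)) then 1
    else 0, ?_, ?_, ?_, ?_, ?_, ?_, ?_⟩
  · intro x y; simp only [G.adj_comm]
  · intro x y; simp only [G.adj_comm, Sym2.eq_swap]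
  · intro x y; dsimp only; split_ifs <;> omega
  · intro x y
    dsimp only
    by_cases h1 : G.Adj x y <;> by_cases h2 : P (f s(x, y)) <;> simp [h1, h2]
  · intro x
    simp only [cdeg, card_filter]
    rw [sum_comm]
    refine sum_congr rfl fun y _ => ?_
    by_cases h1 : G.Adj x y
    · simp only [h1, true_and]
      rw [sum_ite_eq]
      simp
    · simp [h1]
  · intro v
    have h1 : ∀ j, tN G f v j = ∑ x, ∑ y, if G.Adj x y ∧ f s(x, y) = j ∧ G.Adj v x ∧ G.Adj v y
        then 1 else 0 := by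
      intro j
      rw [tN, card_filter, ← univ_product_univ, sum_product]
    simp only [h1]
    rw [sum_comm]
    refine sum_congr rfl fun x _ => ?_
    rw [sum_comm]
    refine sum_congr rfl fun y _ => ?_
    by_cases a1 : G.Adj x y <;> by_cases a2 : G.Adj v x <;> by_cases a3 : G.Adj v y <;>
      simp [a1, a2, a3, sum_ite_eq]
  · intro v
    have h1 : ∀ j, tN G f v j = ∑ x, ∑ y, if G.Adj x y ∧ f s(x, y) = j ∧ G.Adj v x ∧ G.Adj v y
        then 1 else 0 := by
      intro j
      rw [tN, card_filter, ← univ_product_univ, sum_product]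
    simp only [h1]
    rw [sum_comm]
    refine sum_congr rfl fun x _ => ?_
    rw [sum_comm]
    refine sum_congr rfl fun y _ => ?_
    by_cases a1 : G.Adj x y <;> by_cases a2 : G.Adj v x <;> by_cases a3 : G.Adj v y <;>
      simp [a1, a2, a3, sum_ite_eq]

/-- **Upper bound.** If `k ≤ 3 q` then the colour degrees from position `q` on (0-based) are
bounded in terms of those before. -/
theorem upper [Nonempty V] (G : SimpleGraph V) (f : Sym2 V → Fin k) (a : Fin k → ℕ)
    (hdeg : ∀ v j, cdeg G f v j = a j) (hflip : ∀ v i j, i < j → bN G f v j < bN G f v i)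
    (q : ℕ) (hq1 : 1 ≤ q) (hqk : q ≤ k) (hk : k ≤ 3 * q) :
    2 * ∑ j ∈ univ.filter (fun j : Fin k => ¬ j.1 < q), a j ≤
      4 * (∑ j ∈ univ.filter (fun j : Fin k => j.1 < q), a j) +
        3 * (∑ j ∈ univ.filter (fun j : Fin k => j.1 < q), a j) ^ 2 := by
  classical
  obtain ⟨A, S, h1, h2, h3, h4, h5, h6, h7⟩ := sum_tN G f (fun j : Fin k => j.1 < q)
  set s := ∑ j ∈ univ.filter (fun j : Fin k => j.1 < q), a j with hs
  set l := ∑ j ∈ univ.filter (fun j : Fin k => ¬ j.1 < q), a j with hl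
  set n := Fintype.card V with hn
  have hnpos : 0 < n := Fintype.card_pos
  have h5' : ∀ x, ∑ y, S x y = s := by
    intro x
    rw [h5 x, hs]
    exact sum_congr rfl fun j _ => hdeg x j
  have key := tri_ineq A S h1 h2 h3 h4 s h5'
  -- total of the `bN`
  let X : Fin k → ℕ := fun j => ∑ v, bN G f v j
  have hX : ∀ i j, i < j → X j < X i := by
    intro i j hij
    apply sum_lt_sum_of_nonempty univ_nonempty
    intro v _
    exact hflip v i j hij
  -- the pivot
  have hq1' : q - 1 < k := by omega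
  set p : Fin k := ⟨q - 1, hq1'⟩ with hp
  have hL : ∑ j ∈ univ.filter (fun j : Fin k => ¬ j.1 < q), X j ≤ (k - q) * X p := by
    have hcard : (univ.filter (fun j : Fin k => ¬ j.1 < q)).card = k - q := by
      have h0 := card_filter_add_card_filter_not (s := (univ : Finset (Fin k)))
        (fun j : Fin k => j.1 < q)
      have h01 : (univ.filter (fun j : Fin k => j.1 < q)).card = q := by
        rw [Fin.card_filter_val_lt]
        omega
      rw [card_univ, Fintype.card_fin, h01] at h0
      omega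
    calc ∑ j ∈ univ.filter (fun j : Fin k => ¬ j.1 < q), X j
        ≤ ∑ j ∈ univ.filter (fun j : Fin k => ¬ j.1 < q), X p := by
          refine sum_le_sum fun j hj => ?_
          rw [mem_filter] at hj
          exact (hX p j (by rw [Fin.lt_def]; simp only [hp]; omega)).le
      _ = (k - q) * X p := by rw [sum_const, hcard, smul_eq_mul]
  have hS : q * X p ≤ ∑ j ∈ univ.filter (fun j : Fin k => j.1 < q), X j := by
    have h01 : (univ.filter (fun j : Fin k => j.1 < q)).card = q := by
      rw [Fin.card_filter_val_lt]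
      omega
    calc q * X p = ∑ j ∈ univ.filter (fun j : Fin k => j.1 < q), X p := by
          rw [sum_const, h01, smul_eq_mul]
      _ ≤ _ := by
          refine sum_le_sum fun j hj => ?_
          rw [mem_filter] at hj
          rcases lt_or_ge j p with h | h
          · exact (hX j p h).le
          · have : j = p := by
              apply Fin.ext
              have := Fin.le_def.1 h
              simp only [hp] at this ⊢
              omega
            rw [this]
  have hLS : ∑ j ∈ univ.filter (fun j : Fin k => ¬ j.1 < q), X j ≤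
      2 * ∑ j ∈ univ.filter (fun j : Fin k => j.1 < q), X j := by
    calc _ ≤ (k - q) * X p := hL
      _ ≤ (2 * q) * X p := Nat.mul_le_mul_right _ (by omega)
      _ = 2 * (q * X p) := by ring
      _ ≤ _ := Nat.mul_le_mul_left _ hS
  -- express through `T`
  have hXS : ∑ j ∈ univ.filter (fun j : Fin k => j.1 < q), X j =
      2 * (n * s) + ∑ v, ∑ x, ∑ y, S x y * A v x * A v y := by
    simp only [X]
    rw [sum_comm]
    have : ∀ v, ∑ j ∈ univ.filter (fun j : Fin k => j.1 < q), bN G f v j =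
        2 * s + ∑ x, ∑ y, S x y * A v x * A v y := by
      intro v
      rw [← h6 v, hs, mul_sum, ← sum_add_distrib]
      refine sum_congr rfl fun j _ => ?_
      rw [bN_eq, hdeg]
    rw [sum_congr rfl fun v _ => this v, sum_add_distrib, sum_const, card_univ, smul_eq_mul]
    ring
  have hXall : ∑ j, X j = 2 * (n * (s + l)) + ∑ v, ∑ x, ∑ y, A x y * A v x * A v y := by
    simp only [X]
    rw [sum_comm]
    have hsl : s + l = ∑ j, a j := by
      rw [hs, hl, sum_filter_add_sum_filter_not]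
    have : ∀ v, ∑ j, bN G f v j = 2 * (s + l) + ∑ x, ∑ y, A x y * A v x * A v y := by
      intro v
      rw [← h7 v, hsl, mul_sum, ← sum_add_distrib]
      refine sum_congr rfl fun j _ => ?_
      rw [bN_eq, hdeg]
    rw [sum_congr rfl fun v _ => this v, sum_add_distrib, sum_const, card_univ, smul_eq_mul]
    ring
  have hXsplit := sum_filter_add_sum_filter_not (univ : Finset (Fin k))
    (fun j : Fin k => j.1 < q) X
  rw [hXall, hXS] at hXsplit
  rw [hXS] at hLS
  have hfin : n * (2 * l) ≤ n * (4 * s + 3 * s ^ 2) := by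
    nlinarith [key, hLS, hXsplit]
  exact Nat.le_of_mul_le_mul_left hfin hnpos

end Pool.Agent.Q271.FL
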